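import Pool.Agent.V7H35.DivCount
import Pool.Agent.N671.DA.Win

/-!
# Correlations of the divisor functions with a power saving, for ALL shifts near functions of the denominators of good
# approximations

Definitions used: from the starting file `Pool.Agent.Results.MP_122e00_nt.PowerSavingShifts`: the divisor functions `d`, the
sums `D`, the Ramanujan sums `ram`, the densities `κ`, the singular series `𝔖`, `Density`, `G`, `main`.

Let `α_1, …, α_m` be real numbers. We consider the natural numbers `q` with `‖q α_j - β_j‖ ≤ b q^(-τ)` for all `j`, `‖x‖` the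
distance to the nearest integer; for `β = 0`, `b = 1`, `τ = 1 / m` these include the denominators of all best simultaneous
approximations (the denominators of the convergents for `m = 1`). Let `g` have steps bounded below by a positive constant and
growth at most `v^c`, for example `g(q) = q` or `a q^c`. There is `θ > 0`, depending only on `r`, such that for all `α` in `ℝ^m`
outside a set of Hausdorff dimension at most `(m + c (1 - θ) + ρ) / (1 + τ)` and all but finitely many such `q` ALL the shifts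
`h` with `| |h| - g(q) | ≤ q^ρ` satisfy the asymptotic formulas for the correlations `D_r(x; h) = ∑ d_r(n) d_r(n + h)` with a
power saving, for ALL `x` with `|h| ≤ x ≤ |h| ^ (1 + θ)`. For `τ = 1 / m` and `c (1 - θ) + ρ < 1` this holds for almost all
`α`; for instance the denominators of the convergents of almost all real numbers are such shifts. They are very sparse, and so
this does not follow from the number of the exceptional shifts for a single `x`.
-/

set_option autoImplicit false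

namespace Pool.Agent.Results.MP_122e00_nt.ApproximationShiftsH35

open Polynomial
open Pool.Agent.Results.MP_122e00_nt.PowerSavingShifts (D main G ram κ 𝔖 Density)
open Pool.Agent.V7H35.DivCount (Good count)
open Pool.Agent.N671.DA (Solves Expanding expanding_pow approx_good)

/-- **Divisor correlations for ALL shifts near the denominators of good approximations.** Let `r ≥ 2`. There are polynomials
`P_q` (`q ≥ 1`) and `T_h` (`h ≠ 0`) with the following properties. (0) As in the starting file `PowerSavingShifts`: `P_q` is the density of `d_r(n) e(b n / q)`, `(b, q) = 1`, with a power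
saving; for `h ≠ 0` the series `G_h(u, v) = ∑ c_q(h) P_q(u) P_q(v)` converges absolutely, `T_h(u) + T_h'(u) = G_h(u, u)`, and
`T_h` has degree `2 r - 2` and leading coefficient `𝔖_r(h) / ((r - 1)!) ^ 2`. (1) There is
`0 < θ ≤ 1 / 2` such that for all `0 < η ≤ θ`, all `g` with steps `≥ const > 0` and growth at most `v^c`, all `0 ≤ ρ ≤ 1`, `β` in
`ℝ^m` and `τ > 0`, for all `α` in `ℝ^m` outside a set of Hausdorff dimension at most `(m + c (1 - θ) + ρ) / (1 + τ)` and all `b`,
for all large `q` with `‖q α_j - β_j‖ ≤ b q^(-τ)` for all `j`, EVERY integer `n ≥ 1` with `|n - g(q)| ≤ q^ρ` satisfies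
the formulas `Good`: for both shifts `h = n` and `h = - n` and for ALL
`x` with `n ≤ x ≤ n ^ (1 + θ)`, `D_r(x; h)` is `∑ G_h(log m, log(m + h))`, the sum over `m ≤ x` with `m + h ≥ 1`, up to
`x ^ (1 - θ)`, and, if `n ≤ x ^ (1 - η)`, it is `x T_h(log x)` up to `x ^ (1 - η / 16)`. (2) The
functions `a v^c` with `a > 0`, `c ≥ 1` are examples of `g`. -/
theorem result :
    (∀ r : ℕ, 2 ≤ r → ∃ (P : ℕ → ℝ[X]) (T : ℤ → ℝ[X]),
    (Density r P ∧ (∀ q, 1 ≤ q → (P q).natDegree = r - 1 ∧ (P q).leadingCoeff = κ (r - 1) q / ((r - 1).factorial : ℝ)) ∧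
      ∀ ε : ℝ, 0 < ε → ∃ C : ℝ, ∀ q i : ℕ, 1 ≤ q → |(P q).coeff i| ≤ C * (q : ℝ) ^ (ε - 1)) ∧
    (∀ h : ℤ, h ≠ 0 → (∀ u v : ℝ, Summable (fun q : ℕ => (ram (q + 1) h : ℝ) * ((P (q + 1)).eval u * (P (q + 1)).eval v))) ∧
      (∀ u : ℝ, (T h).eval u + (derivative (T h)).eval u = G P h u u) ∧
      (T h).natDegree = 2 * r - 2 ∧ (T h).leadingCoeff = 𝔖 r h / ((r - 1).factorial : ℝ) ^ 2) ∧
    ∃ θ : ℝ, 0 < θ ∧ θ ≤ 1 / 2 ∧ ∀ η : ℝ, 0 < η → η ≤ θ →
      ∀ (g : ℕ → ℝ) (c : ℝ), Expanding g c → ∀ ρ : ℝ, 0 ≤ ρ → ρ ≤ 1 →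
      ∀ (m : ℕ) (β : Fin m → ℝ) (τ : ℝ), 0 < τ →
      ∃ E : Set (Fin m → ℝ), dimH E ≤ ENNReal.ofReal ((m + (c * (1 - θ) + ρ)) / (1 + τ)) ∧
        ∀ α, α ∉ E → ∀ b : ℝ, ∃ Q : ℕ, ∀ q : ℕ, Q ≤ q → Solves α β q (b * (q : ℝ) ^ (-τ)) →
          ∀ n : ℕ, 1 ≤ n → |(n : ℝ) - g q| ≤ (q : ℝ) ^ ρ → Good r P T θ η n) ∧
    ∀ a c : ℝ, 0 < a → 1 ≤ c → Expanding (fun v => a * (v : ℝ) ^ c) c := by
  refine ⟨fun r hr => ?_, fun a d ha hd => expanding_pow ha hd⟩
  obtain ⟨P, T, h0, h1, θ, hθ, hθ2, h⟩ := count r hr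
  refine ⟨P, T, h0, h1, θ, hθ, hθ2, fun η hη hηθ g c hg ρ hρ hρ1 m β τ hτ => ?_⟩
  obtain ⟨E, hE, hE2⟩ := approx_good (fun n : ℕ => 1 ≤ n) (fun n => Good r P T θ η n) (fun n : ℕ => (n : ℝ)) hg
    (s := 1 - θ) (κ := ρ) (by linarith) hρ hρ1 (h η hη hηθ) β hτ
  exact ⟨E, hE, hE2⟩

end Pool.Agent.Results.MP_122e00_nt.ApproximationShiftsH35
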