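import Pool.Agent.V7H41.PX.Fin

/-!
# Correlations of the divisor functions with a power saving, for almost all shifts of the form `X Y + Z`

Let `X` be a random integer and `(Y, Z)` a random pair of integers which is independent of `X`; nothing is supposed about
the dependence of `Z` on `Y`. We show that the asymptotic formula for the sum `D_r(x; h)` of `d_r(n) d_r(n + h)` holds with a
power saving, for all `x ≤ N`, for almost all shifts `h = X Y + Z`, if

* the characteristic function of `X` has few large values (for instance `X` is uniform on an ARBITRARY dense subset of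
  `[1, A]`, or on the values of a polynomial at an arbitrary dense set of integers),
* `Y` is spread (Hölder conditions for short intervals and for residue classes; for instance `Y` is a value of a polynomial
  at a random element of an ARBITRARY dense set of integers) and `|Y| ≤ B`, `N ^ δ ≤ B ≤ A N ^ θ`, `A B ≥ N ^ (1 - θ)`.

Examples: all but few of the shifts `a b ^ k + z(b)`, `n ^ j m ^ k`, of the values `f₁(n) f₂(m) + z(m)` with arbitrary
functions `z`, of the determinants `a d - b c` with `a`, `d` from arbitrary dense sets and `b`, `c` arbitrary functions of `d`.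
For fixed `m` these shifts lie in one residue class to a modulus larger than a power of `N`, and nothing is known for almost
all `n`; the average over `m` is essential.

Definitions used: from the starting file `Pool.Agent.Results.MP_122e00_nt.PowerSavingShifts`: the divisor functions `d`,
the sums `D`, the Ramanujan sums `ram`, the densities `κ`, the singular series `𝔖`, `Density`, `G`, `main`; from the starting
file `SparseRandomShifts`: `Asymp`, the characteristic function `φ`, `FewLarge`.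

Method: if the characteristic function of `X Y + Z` is larger than `2 ρ` at `α`, then `α Y` is with probability `> ρ` near one
of the few points where the characteristic function of `X` is larger than `ρ`, so that `α (Y - Y')` is near an integer with
probability at least `(ρ / K) ^ 2`, for a copy `Y'` of `Y`. For `m + 1` independent differences `D_0, …, D_m` this holds
simultaneously with probability at least `(ρ / K) ^ (2 m + 2)`. But the number of the `α` (with distances `≥ 1 / N`) for which all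
the `α D_i` are near integers is bounded by a small power of `N`, if the greatest common divisor of the `D_i` is small and `D_0` is
large: the nearest integers `a_i` satisfy `a_i D_0 - a_0 D_i = O(N ^ θ)`. So the large values are few, and the spectral
criterion of the starting file `SparseRandomShifts` applies. For polynomials the conditions on `Y` follow from Lagrange
interpolation, and the condition on `X` follows from the additive energy of the values (starting library) and the large sieve.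
-/

set_option autoImplicit false

namespace Pool.Agent.Results.MP_122e00_nt.ProductShiftsH41

open Finset Polynomial
open Pool.Agent.Results.MP_122e00_nt.PowerSavingShifts (D ram κ 𝔖 Density G main)
open Pool.Agent.Results.MP_122e00_nt.SparseRandomShifts (Asymp FewLarge)

open Classical in
/-- The probability of `R (y - y')` for two independent copies `y`, `y'` of the random integer which takes the value `y k` with
the probability `w k`. -/
noncomputable def prob {τ : Type} [Fintype τ] (w : τ → ℝ) (y : τ → ℤ) (R : ℤ → Prop) : ℝ :=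
  ∑ k, ∑ l, if R (y k - y l) then w k * w l else 0

/-- The random integer `y` of size at most `B` is spread: two independent copies are congruent modulo `g` with probability
at most `E g ^ (-σ)`, `1 ≤ g ≤ 2 B`, and they are at a distance of at most `B / t` with probability at most `E t ^ (-σ)`,
`1 ≤ t ≤ B`. -/
structure Spread {τ : Type} [Fintype τ] (w : τ → ℝ) (y : τ → ℤ) (B : ℕ) (E σ : ℝ) : Prop where
  size : ∀ k, |y k| ≤ B
  residue : ∀ g : ℕ, 1 ≤ g → g ≤ 2 * B → prob w y (fun d => (g : ℤ) ∣ d) ≤ E * (g : ℝ) ^ (-σ)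
  interval : ∀ t : ℝ, 1 ≤ t → t ≤ B → prob w y (fun d => |(d : ℝ)| ≤ B / t) ≤ E * t ^ (-σ)

lemma Spread.to {τ : Type} [Fintype τ] {w : τ → ℝ} {y : τ → ℤ} {B : ℕ} {E σ : ℝ} (h : Spread w y B E σ) :
    Pool.Agent.V7H41.PX.Spread w y B E σ := ⟨h.size, h.residue, h.interval⟩

open Classical in
/-- **Divisor correlations for almost all shifts of the form `X Y + Z`.** Let `r ≥ 2`. There are polynomials `P_q` (`q ≥ 1`)
and `T_h` (`h ≠ 0`) with the following properties.

(0) As in the starting files: `P_q` is the density of `d_r(n) e(b n / q)`, `(b, q) = 1`, with a power saving; for `h ≠ 0` the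
series `G_h(u, v) = ∑ c_q(h) P_q(u) P_q(v)` converges absolutely, `y T_h(log y)` has the derivative `G_h(log y, log y)`, and
`T_h` has degree `2 r - 2` and leading coefficient `𝔖_r(h) / ((r - 1)!) ^ 2`.

(1) There is `C` such that for all `σ, δ > 0` there is `θ > 0` such that for all large `N` and all `A`, `B` with
`N ^ δ ≤ B ≤ A N ^ θ`, `A B ≥ N ^ (1 - θ)` the following holds. Let `X` (with the values `x i` and the probabilities `u i`) be a
random integer independent of the random pair `(Y, Z)` (with the values `(y k, z k)` and the probabilities `w k`),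
`|X Y + Z| ≤ B₁ N`, and let `N ^ (-θ) ≤ ρ ≤ 1 / 2`. If the characteristic function of `X` is larger than `ρ` at no more than
`N ^ θ` points of the circle with distances `≥ 1 / A`, and `Y` is spread, `Spread w y B (N ^ θ) σ`, then with probability at
least `1 - ρ ^ (1 / 2) (log N) ^ C` the shift `h = X Y + Z` is `0` or satisfies, for ALL `x ≤ N`: `D_r(x; h)` is the main term
up to `E = ρ ^ (1 / 8) N (log N) ^ C` and, if `|h| ≤ N ^ (1 - η)`, it is `x T_h(log x)` up to `E + N ^ (1 - η / 4)`.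

(2) Let `f₁`, `f₂` be integer polynomials of positive degrees `d₁`, `d₂`, and `δ > 0`. There is `θ > 0` such that for large `N`,
for all `x`, `y` with `N ^ δ ≤ y ^ d₂ ≤ x ^ d₁ N ^ θ` and `N ^ (1 - θ) ≤ x ^ d₁ y ^ d₂ ≤ N`, for ALL sets `X ⊆ [1, x]`, `Y ⊆ [1, y]`
with at least `x N ^ (-θ)` and `y N ^ (-θ)` elements and for EVERY function `z` with `|z m| ≤ B₁ N`: for all pairs `(n, m)` in
`X × Y`, with at most `N ^ (-θ) |X| |Y|` exceptions, ALL the integers `h ≠ 0` with `|h - (f₁(n) f₂(m) + z(m))| ≤ N ^ θ` satisfy,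
for ALL `x ≤ N`: `D_r(x; h)` is the main term up to `N ^ (1 - θ)` and, if `|h| ≤ N ^ (1 - η)`, it is `x T_h(log x)` up to
`N ^ (1 - θ) + N ^ (1 - η / 4)`. -/
theorem result (r : ℕ) (hr : 2 ≤ r) : ∃ (P : ℕ → ℝ[X]) (T : ℤ → ℝ[X]),
    (Density r P ∧ ∀ q, 1 ≤ q → (P q).natDegree = r - 1 ∧ (P q).leadingCoeff = κ (r - 1) q / ((r - 1).factorial : ℝ)) ∧
    (∀ h : ℤ, h ≠ 0 → (∀ u v : ℝ, Summable (fun q : ℕ => (ram (q + 1) h : ℝ) * ((P (q + 1)).eval u * (P (q + 1)).eval v))) ∧
      (∀ u : ℝ, (T h).eval u + (derivative (T h)).eval u = G P h u u) ∧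
      (T h).natDegree = 2 * r - 2 ∧ (T h).leadingCoeff = 𝔖 r h / ((r - 1).factorial : ℝ) ^ 2) ∧
    (∃ C : ℕ, ∀ σ δ : ℝ, 0 < σ → 0 < δ → ∃ θ : ℝ, 0 < θ ∧ ∀ (B₁ : ℕ) (η : ℝ), 0 < η → η ≤ 1 → ∃ N₀ : ℕ, ∀ N : ℕ, N₀ ≤ N →
      ∀ A B : ℕ, (N : ℝ) ^ δ ≤ B → (B : ℝ) ≤ A * (N : ℝ) ^ θ → (N : ℝ) ^ (1 - θ) ≤ A * B →
      ∀ (ι τ : Type) [Fintype ι] [Fintype τ] (u : ι → ℝ) (x : ι → ℤ) (w : τ → ℝ) (y z : τ → ℤ),
        (∀ i, 0 ≤ u i) → ∑ i, u i = 1 → (∀ k, 0 ≤ w k) → ∑ k, w k = 1 → (∀ i k, |x i * y k + z k| ≤ B₁ * N) →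
        ∀ ρ : ℝ, (N : ℝ) ^ (-θ) ≤ ρ → ρ ≤ 1 / 2 → FewLarge u x A ρ ((N : ℝ) ^ θ) → Spread w y B ((N : ℝ) ^ θ) σ →
        ∑ q ∈ univ.filter (fun q : ι × τ => x q.1 * y q.2 + z q.2 ≠ 0 ∧
          ¬ Asymp r N P T (ρ ^ (1 / 8 : ℝ) * N * Real.log N ^ C) η (x q.1 * y q.2 + z q.2)), u q.1 * w q.2 ≤
          ρ ^ (1 / 2 : ℝ) * Real.log N ^ C) ∧
    (∀ f₁ f₂ : ℤ[X], 1 ≤ f₁.natDegree → 1 ≤ f₂.natDegree → ∀ δ : ℝ, 0 < δ → ∃ θ : ℝ, 0 < θ ∧
      ∀ (B₁ : ℕ) (η : ℝ), 0 < η → η ≤ 1 → ∃ N₀ : ℕ, ∀ N : ℕ, N₀ ≤ N →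
      ∀ x y : ℕ, (N : ℝ) ^ δ ≤ (y : ℝ) ^ f₂.natDegree → (y : ℝ) ^ f₂.natDegree ≤ (x : ℝ) ^ f₁.natDegree * (N : ℝ) ^ θ →
      (N : ℝ) ^ (1 - θ) ≤ (x : ℝ) ^ f₁.natDegree * (y : ℝ) ^ f₂.natDegree → x ^ f₁.natDegree * y ^ f₂.natDegree ≤ N →
      ∀ X ⊆ Icc 1 x, ∀ Y ⊆ Icc 1 y, (x : ℝ) * (N : ℝ) ^ (-θ) ≤ X.card → (y : ℝ) * (N : ℝ) ^ (-θ) ≤ Y.card →
      ∀ z : ℕ → ℤ, (∀ m ∈ Y, |z m| ≤ B₁ * N) →
        (((X ×ˢ Y).filter fun q : ℕ × ℕ => ∃ h : ℤ,
          |((h - (f₁.eval (q.1 : ℤ) * f₂.eval (q.2 : ℤ) + z q.2) : ℤ) : ℝ)| ≤ (N : ℝ) ^ θ ∧ h ≠ 0 ∧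
          ¬ Asymp r N P T ((N : ℝ) ^ (1 - θ)) η h).card : ℝ) ≤ (N : ℝ) ^ (-θ) * (X.card * Y.card)) := by
  obtain ⟨P, T, h0, h1, ⟨θc, hθc, C', hcrit⟩, -, -⟩ := Pool.Agent.Results.MP_122e00_nt.SparseRandomShifts.result r hr
  have hc : Pool.Agent.V7H41.PX.Crit r P T θc C' := by
    intro B η hη hη1
    obtain ⟨N₀, h⟩ := hcrit B η hη hη1
    exact ⟨N₀, h⟩
  refine ⟨P, T, ⟨h0.1, h0.2.1⟩, h1, ⟨C' + 1, fun σ δ hσ hδ => ?_⟩, fun f₁ f₂ hd₁ hd₂ δ hδ => ?_⟩
  · obtain ⟨θ, hθ, h2⟩ := Pool.Agent.V7H41.PX.gen r P T θc C' hθc hc σ δ hσ hδ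
    refine ⟨θ, hθ, fun B₁ η hη hη1 => ?_⟩
    obtain ⟨N₀, h3⟩ := h2 B₁ η hη hη1
    exact ⟨N₀, fun N hN A B hB hBA hAB ι τ _ _ u x w y z hu hu1 hw hw1 hb ρ hρ hρ1 hX hY =>
      h3 N hN A B hB hBA hAB ι τ u x w y z hu hu1 hw hw1 hb ρ hρ hρ1 hX hY.to⟩
  · exact Pool.Agent.V7H41.PX.poly r P T θc C' hθc hc f₁ f₂ hd₁ hd₂ δ hδ

end Pool.Agent.Results.MP_122e00_nt.ProductShiftsH41
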