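import Pool.Agent.V7H35.DivCount
import Pool.Agent.R482.ST.Star

/-!
# Correlations of the divisor functions with a power saving, for ALL shifts near powers, orbits and other sequences

Definitions used: from the starting file `Pool.Agent.Results.MP_122e00_nt.PowerSavingShifts`: the divisor functions `d`, the
sums `D`, the Ramanujan sums `ram`, the densities `κ`, the singular series `𝔖`, `Density`, `G`, `main`.

Let `f_k`, `k = 0, 1, 2, …`, be positive functions on `(a, ∞)`, `a ≥ 0`, such that `f_k(t) / t` is nondecreasing, and such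
that the sequence `f_k(t)` has exponent of convergence at most `τ` for each `t > a`: for instance `f_k(t) = t ^ (v_k)` for
exponents `v_k ≥ 1` (`τ = 0`; all powers, the powers `t ^ (3 ^ k)` of Mills, …), the orbits `f_k(t) = g (g (⋯ g (t)))` of any
map `g` with `g(t) > t` and `g(t) / t` nondecreasing (`τ = 0`), and `f_k(t) = v_k t`. There is `θ > 0`, depending only on `r`,
such that for all `α > a` outside a set of Hausdorff dimension at most `(1 - θ + τ) / (1 - ρ)` and for all but finitely many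
`k` ALL the shifts `h` with `| |h| - f_k(α) | ≤ b f_k(α) ^ ρ` satisfy the asymptotic formulas for the correlations
`D_r(x; h) = ∑ d_r(n) d_r(n + h)` with a power saving, for ALL `x` with `|h| ≤ x ≤ |h| ^ (1 + θ)`. For powers and orbits and
`ρ < θ` this holds for almost all `α`. The shifts near the members of such a sequence are very sparse, and so this does not
follow from the number of the exceptional shifts for a single `x`.
-/

set_option autoImplicit false

namespace Pool.Agent.Results.MP_122e00_nt.StarshapedShiftsH35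

open Polynomial
open Pool.Agent.Results.MP_122e00_nt.PowerSavingShifts (D main G ram κ 𝔖 Density)
open Pool.Agent.V7H35.DivCount (Good count)

/-- the functions `f n` are positive on `(a, ∞)`, `a ≥ 0`, and `f n x / x` is nondecreasing there -/
def Starshaped (a : ℝ) (f : ℕ → ℝ → ℝ) : Prop :=
  0 ≤ a ∧ ∀ n : ℕ, ∀ x y : ℝ, a < x → x ≤ y → 0 < f n x ∧ f n x / x ≤ f n y / y

/-- for each `x > a` the exponent of convergence of the sequence `f n x` is at most `τ` -/
def ExpLe (a : ℝ) (f : ℕ → ℝ → ℝ) (τ : ℝ) : Prop :=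
  ∀ x : ℝ, a < x → ∀ t : ℝ, τ < t → Summable (fun n : ℕ => (f n x) ^ (-t))

/-- **Divisor correlations for ALL shifts near powers, orbits and other sequences.** Let `r ≥ 2`. There are polynomials `P_q`
(`q ≥ 1`) and `T_h` (`h ≠ 0`) with the following properties. (0) As in the starting file `PowerSavingShifts`: `P_q` is the density of `d_r(n) e(b n / q)`, `(b, q) = 1`, with a power
saving; for `h ≠ 0` the series `G_h(u, v) = ∑ c_q(h) P_q(u) P_q(v)` converges absolutely, `T_h(u) + T_h'(u) = G_h(u, u)`, and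
`T_h` has degree `2 r - 2` and leading coefficient `𝔖_r(h) / ((r - 1)!) ^ 2`. (1) There is
`0 < θ ≤ 1 / 2` such that for all `0 < η ≤ θ`, all starshaped functions `f` on `(a, ∞)` of exponent of convergence at most
`τ ≥ 0` and all `ρ < 1` there is a set `E` of Hausdorff dimension at most `(1 - θ + τ) / (1 - ρ)` such that for all `α > a`
outside `E` and all `b`, for all but finitely many `k`, EVERY integer `n ≥ 1` with `|n - f_k(α)| ≤ b f_k(α) ^ ρ` satisfies
the formulas `Good`: for both shifts `h = n` and `h = - n` and for ALL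
`x` with `n ≤ x ≤ n ^ (1 + θ)`, `D_r(x; h)` is `∑ G_h(log m, log(m + h))`, the sum over `m ≤ x` with `m + h ≥ 1`, up to
`x ^ (1 - θ)`, and, if `n ≤ x ^ (1 - η)`, it is `x T_h(log x)` up to `x ^ (1 - η / 16)`. (2) - (4) The
functions `v_n x`, `v_n > 0`, are starshaped on `(0, ∞)`, of exponent `τ` if `v` has exponent of convergence at most `τ`; the
functions `x ^ (v_n)`, `v_n ≥ 1`, are starshaped on `(1, ∞)`, of exponent `0` if the sums of `exp (-t v_n)` converge for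
`t > 0`; and the iterates of a map `g` with `g(x) > x` for `x > a` and `g(x) / x` nondecreasing are starshaped on `(a, ∞)`, of
exponent `0`. -/
theorem result :
    (∀ r : ℕ, 2 ≤ r → ∃ (P : ℕ → ℝ[X]) (T : ℤ → ℝ[X]),
    (Density r P ∧ (∀ q, 1 ≤ q → (P q).natDegree = r - 1 ∧ (P q).leadingCoeff = κ (r - 1) q / ((r - 1).factorial : ℝ)) ∧
      ∀ ε : ℝ, 0 < ε → ∃ C : ℝ, ∀ q i : ℕ, 1 ≤ q → |(P q).coeff i| ≤ C * (q : ℝ) ^ (ε - 1)) ∧
    (∀ h : ℤ, h ≠ 0 → (∀ u v : ℝ, Summable (fun q : ℕ => (ram (q + 1) h : ℝ) * ((P (q + 1)).eval u * (P (q + 1)).eval v))) ∧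
      (∀ u : ℝ, (T h).eval u + (derivative (T h)).eval u = G P h u u) ∧
      (T h).natDegree = 2 * r - 2 ∧ (T h).leadingCoeff = 𝔖 r h / ((r - 1).factorial : ℝ) ^ 2) ∧
    ∃ θ : ℝ, 0 < θ ∧ θ ≤ 1 / 2 ∧ ∀ η : ℝ, 0 < η → η ≤ θ →
      ∀ (a : ℝ) (f : ℕ → ℝ → ℝ) (τ ρ : ℝ), Starshaped a f → 0 ≤ τ → ExpLe a f τ → ρ < 1 →
      ∃ E : Set ℝ, dimH E ≤ ENNReal.ofReal ((1 - θ + τ) / (1 - ρ)) ∧ ∀ α : ℝ, a < α → α ∉ E → ∀ b : ℝ,
        ∃ k₀ : ℕ, ∀ k : ℕ, k₀ ≤ k → ∀ n : ℕ, 1 ≤ n → |(n : ℝ) - f k α| ≤ b * (f k α) ^ ρ → Good r P T θ η n) ∧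
    (∀ (v : ℕ → ℝ) (τ : ℝ), (∀ n, 0 < v n) → (∀ t : ℝ, τ < t → Summable (fun n : ℕ => (v n) ^ (-t))) →
      Starshaped 0 (fun n x => v n * x) ∧ ExpLe 0 (fun n x => v n * x) τ) ∧
    (∀ v : ℕ → ℝ, (∀ n, 1 ≤ v n) → (∀ t : ℝ, 0 < t → Summable fun n : ℕ => Real.exp (-(t * v n))) →
      Starshaped 1 (fun n x => x ^ (v n)) ∧ ExpLe 1 (fun n x => x ^ (v n)) 0) ∧
    (∀ (a : ℝ) (g : ℝ → ℝ), 0 ≤ a → (∀ x y : ℝ, a < x → x ≤ y → g x / x ≤ g y / y) → (∀ x : ℝ, a < x → x < g x) →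
      Starshaped a (fun n x => g^[n] x) ∧ ExpLe a (fun n x => g^[n] x) 0) := by
  refine ⟨fun r hr => ?_, Pool.Agent.R482.ST.ex_mul, Pool.Agent.R482.ST.ex_pow, Pool.Agent.R482.ST.ex_orbit⟩
  obtain ⟨P, T, h0, h1, θ, hθ, hθ2, h⟩ := count r hr
  refine ⟨P, T, h0, h1, θ, hθ, hθ2, fun η hη hηθ a f τ ρ hf hτ hE hρ => ?_⟩
  obtain ⟨E, h3, h4⟩ := Pool.Agent.R482.ST.windows {n : ℕ | 1 ≤ n ∧ ¬ Good r P T θ η n} (fun n : ℕ => (n : ℝ)) hf hτ hE
    (s := 1 - θ) (by linarith) hρ (h η hη hηθ)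
  refine ⟨E, h3, fun α hα hαE b => ?_⟩
  obtain ⟨k₀, hk⟩ := h4 α hα hαE b
  refine ⟨k₀, fun k hk1 n hn h5 => ?_⟩
  by_contra hcon
  exact absurd h5 (not_le.2 (hk k hk1 n ⟨hn, hcon⟩))

end Pool.Agent.Results.MP_122e00_nt.StarshapedShiftsH35
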