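import Pool.Agent.V7H35.DivCount
import Pool.Agent.N760.IT.D

/-!
# Correlations of the divisor functions with a power saving, for ALL shifts near the members of almost all orbits of Euler's
# function and near values of multiplicative functions

Definitions used: from the starting file `Pool.Agent.Results.MP_122e00_nt.PowerSavingShifts`: the divisor functions `d`, the
sums `D`, the Ramanujan sums `ram`, the densities `κ`, the singular series `𝔖`, `Density`, `G`, `main`.

Let `φ_k` be the `k`-th iterate of Euler's function, `φ_0(m) = m`. Let `f` be a positive multiplicative function of at most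
polynomial growth such that `f p ≤ M p` for the large primes `p`, with different values at different large primes; for example
the identity, Euler's function or the sum of the divisors. Let `g` have steps bounded below by a positive constant and growth
at most `v^c`, for example `g(v) = v` or `a v^c`. There is `θ > 0`, depending only on `r`, such that, if `c (1 - θ) + ρ < 1`, there
is `K(m)` tending to infinity such that for almost all `m`, for all `k ≤ K(m)`, with `v = f(φ_k(m))`, ALL the shifts `h` with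
`| |h| - g(v) | ≤ v^ρ` satisfy the asymptotic formulas for the correlations `D_r(x; h) = ∑ d_r(n) d_r(n + h)` with a power
saving, for ALL `x` with `|h| ≤ x ≤ |h| ^ (1 + θ)`. The values `f(φ_k(m))` are in general taken with very large
multiplicities, and so this does not follow from the number of the exceptional shifts.
-/

set_option autoImplicit false

namespace Pool.Agent.Results.MP_122e00_nt.TotientOrbitShiftsH35

open Polynomial Filter
open Pool.Agent.Results.MP_122e00_nt.PowerSavingShifts (D main G ram κ 𝔖 Density)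
open Pool.Agent.V7H35.DivCount (Good count)
open Pool.Agent.N733.TG (LM Expanding lm_totient lm_sigma expanding_pow)
open Pool.Agent.N760.IT (orb lm_id orbit_good)
open Pool.Agent.N826.IT.Orb (AlmostAll)

/-- **Divisor correlations for ALL shifts near the orbits of Euler's function.** Let `r ≥ 2`. There are polynomials `P_q`
(`q ≥ 1`) and `T_h` (`h ≠ 0`) with the following properties. (0) As in the starting file `PowerSavingShifts`: `P_q` is the density of `d_r(n) e(b n / q)`, `(b, q) = 1`, with a power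
saving; for `h ≠ 0` the series `G_h(u, v) = ∑ c_q(h) P_q(u) P_q(v)` converges absolutely, `T_h(u) + T_h'(u) = G_h(u, u)`, and
`T_h` has degree `2 r - 2` and leading coefficient `𝔖_r(h) / ((r - 1)!) ^ 2`. (1) There is
`0 < θ ≤ 1 / 2` such that for all `0 < η ≤ θ` the following holds. Let `f` be multiplicative and positive, of at most
polynomial growth, with `f p ≤ M p` at the large primes, and injective there (`LM f`), let `g` have steps `≥ const > 0` and
growth at most `v^c`, `ρ ≥ 0` and `c (1 - θ) + ρ < 1`. There is `K(m)` tending to infinity such that for almost all `m`, for all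
`k ≤ K(m)`, with `v = f(φ_k(m))` (`orb f k m`), EVERY integer `n ≥ 1` with `|n - g(v)| ≤ v^ρ` satisfies
the formulas `Good`: for both shifts `h = n` and `h = - n` and for ALL
`x` with `n ≤ x ≤ n ^ (1 + θ)`, `D_r(x; h)` is `∑ G_h(log m, log(m + h))`, the sum over `m ≤ x` with `m + h ≥ 1`, up to
`x ^ (1 - θ)`, and, if `n ≤ x ^ (1 - η)`, it is `x T_h(log x)` up to `x ^ (1 - η / 16)`. (2), (3) The
identity, Euler's function and the sum of the divisors are examples of `f`, and `a v^c` with `a > 0`, `c ≥ 1` is an example of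
`g`. -/
theorem result :
    (∀ r : ℕ, 2 ≤ r → ∃ (P : ℕ → ℝ[X]) (T : ℤ → ℝ[X]),
    (Density r P ∧ (∀ q, 1 ≤ q → (P q).natDegree = r - 1 ∧ (P q).leadingCoeff = κ (r - 1) q / ((r - 1).factorial : ℝ)) ∧
      ∀ ε : ℝ, 0 < ε → ∃ C : ℝ, ∀ q i : ℕ, 1 ≤ q → |(P q).coeff i| ≤ C * (q : ℝ) ^ (ε - 1)) ∧
    (∀ h : ℤ, h ≠ 0 → (∀ u v : ℝ, Summable (fun q : ℕ => (ram (q + 1) h : ℝ) * ((P (q + 1)).eval u * (P (q + 1)).eval v))) ∧
      (∀ u : ℝ, (T h).eval u + (derivative (T h)).eval u = G P h u u) ∧
      (T h).natDegree = 2 * r - 2 ∧ (T h).leadingCoeff = 𝔖 r h / ((r - 1).factorial : ℝ) ^ 2) ∧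
    ∃ θ : ℝ, 0 < θ ∧ θ ≤ 1 / 2 ∧ ∀ η : ℝ, 0 < η → η ≤ θ →
      ∀ f : ℕ → ℕ, LM f → ∀ (g : ℕ → ℝ) (c : ℝ), Expanding g c → ∀ ρ : ℝ, 0 ≤ ρ → c * (1 - θ) + ρ < 1 →
      ∃ K : ℕ → ℕ, Tendsto K atTop atTop ∧
        AlmostAll (fun m => ∀ k ≤ K m, ∀ n : ℕ, 1 ≤ n → |(n : ℝ) - g (orb f k m)| ≤ (orb f k m : ℝ) ^ ρ →
          Good r P T θ η n)) ∧
    (LM (fun m => m) ∧ LM Nat.totient ∧ LM (fun m => ∑ d ∈ m.divisors, d)) ∧
    ∀ a c : ℝ, 0 < a → 1 ≤ c → Expanding (fun v => a * (v : ℝ) ^ c) c := by
  refine ⟨fun r hr => ?_, ⟨lm_id, lm_totient, lm_sigma⟩, fun a d ha hd => expanding_pow ha hd⟩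
  obtain ⟨P, T, h0, h1, θ, hθ, hθ2, h⟩ := count r hr
  refine ⟨P, T, h0, h1, θ, hθ, hθ2, fun η hη hηθ f hf g c hg ρ hρ hc => ?_⟩
  exact orbit_good (fun n : ℕ => 1 ≤ n) (fun n => Good r P T θ η n) (fun n : ℕ => (n : ℝ)) hf hg
    (s := 1 - θ) (κ := ρ) (by linarith) hρ hc (h η hη hηθ)

end Pool.Agent.Results.MP_122e00_nt.TotientOrbitShiftsH35
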